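import Pool.Agent.Y601.SSE.Ac0

set_option autoImplicit false

/-!
Functions of small decision tree depth are balanced between the two parities; the leading digits of
a number.
-/

namespace Pool.Agent.Q231.VCR

open Finset H568R2 Pool.Agent.TH163.AC3 Pool.Agent.Y601.SSE

section bal

variable {I : Type} [Fintype I] [DecidableEq I] [LinearOrder I]

/-- the number of ones is odd -/
def IsOdd (x : I → Bool) : Prop := Odd (univ.filter fun j => x j = true).card

open scoped Classical in
/-- the sign of the parity -/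
noncomputable def sgn (x : I → Bool) : ℝ := if IsOdd x then 1 else -1

omit [LinearOrder I] in
lemma sgn_flip (i : I) (x : I → Bool) : sgn (flip i x) = - sgn x := by
  have h := odd_flip i x
  unfold sgn IsOdd
  by_cases h1 : Odd (univ.filter fun j => x j = true).card
  · rw [if_pos h1, if_neg (by rw [h]; exact not_not.2 h1)]
  · rw [if_neg h1, if_pos (h.2 h1)]
    norm_num

/-- a function with a shallow decision tree is balanced -/
theorem balance {s : ℕ} {f : (I → Bool) → Bool} (hf : HasDT s f) (ρ : Restr I)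
    (hs : s < (univ.filter fun i => ρ i = none).card) :
    ∑ x : I → Bool, sgn (ov ρ x) * (if f x = true then 1 else 0) = 0 := by
  classical
  obtain ⟨t, ht, he⟩ := hf
  have hne : ∀ x : I → Bool, ((univ.filter fun i => ρ i = none) \ t.reads x).Nonempty := by
    intro x
    rw [← card_pos]
    have h1 := le_card_sdiff (t.reads x) (univ.filter fun i => ρ i = none)
    have h2 := t.card_reads x
    omega
  obtain ⟨g, hg⟩ : ∃ g : (I → Bool) → I, ∀ x, g x =
      ((univ.filter fun i => ρ i = none) \ t.reads x).min' (hne x) := ⟨_, fun _ => rfl⟩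
  have hmem : ∀ x, g x ∈ (univ.filter fun i => ρ i = none) \ t.reads x := by
    intro x
    rw [hg]
    exact min'_mem _ _
  have hcg : ∀ x, t.eval (flip (g x) x) = t.eval x ∧ t.reads (flip (g x) x) = t.reads x := by
    intro x
    apply t.congr
    intro i hi
    have : i ≠ g x := by
      intro h
      have h2 := hmem x
      rw [mem_sdiff, ← h] at h2
      exact h2.2 hi
    unfold Pool.Agent.Y601.SSE.flip
    rw [Function.update_of_ne this]
  have hg2 : ∀ x, g (flip (g x) x) = g x := by
    intro x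
    rw [hg (flip (g x) x), hg x]
    congr 1
    rw [← hg x, (hcg x).2]
  refine sum_involution (fun x _ => flip (g x) x) ?_ ?_ (fun _ _ => mem_univ _) ?_
  · intro x _
    have h1 := hmem x
    rw [mem_sdiff, mem_filter] at h1
    rw [ov_flip ρ (g x) h1.1.2, sgn_flip, ← he, ← he, (hcg x).1]
    ring
  · intro x _ _ h
    have h2 := congrFun h (g x)
    unfold Pool.Agent.Y601.SSE.flip at h2
    rw [Function.update_self] at h2
    cases hx : x (g x) <;> simp [hx] at h2
  · intro x _
    show flip (g (flip (g x) x)) (flip (g x) x) = x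
    rw [hg2, Pool.Agent.Y601.SSE.flip_flip]

/-- a value given by shallow digits -/
noncomputable def val (B : ℕ) (b : ℕ → Bool) : ℝ := ∑ j ∈ range B, 2 ^ j * if b j = true then 1 else 0

lemma val_nonneg (B : ℕ) (b : ℕ → Bool) : 0 ≤ val B b := by
  unfold val
  apply sum_nonneg
  intro j _
  split_ifs <;> positivity

theorem balance_val {s : ℕ} (B : ℕ) (f : ℕ → (I → Bool) → Bool) (hf : ∀ j, HasDT s (f j))
    (ρ : Restr I) (hs : s < (univ.filter fun i => ρ i = none).card) :
    ∑ x : I → Bool, sgn (ov ρ x) * val B (fun j => f j x) = 0 := by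
  unfold val
  simp_rw [mul_sum]
  rw [sum_comm]
  apply sum_eq_zero
  intro j _
  have h := balance (hf j) ρ hs
  have h2 : ∀ x : I → Bool, sgn (ov ρ x) * (2 ^ j * if f j x = true then (1 : ℝ) else 0) =
      2 ^ j * (sgn (ov ρ x) * if f j x = true then (1 : ℝ) else 0) := by
    intro x
    ring
  rw [sum_congr rfl fun x _ => h2 x, ← mul_sum, h, mul_zero]

/-- an odd point at which the average of the neighbouring values is at most the value -/
theorem exists_point {s : ℕ} (B : ℕ) (f : ℕ → (I → Bool) → Bool) (hf : ∀ j, HasDT s (f j))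
    (ρ : Restr I) (hs : s < (univ.filter fun i => ρ i = none).card) :
    ∃ y : I → Bool, IsOdd (ov ρ y) ∧
      ∑ a ∈ univ.filter (fun i => ρ i = none), val B (fun j => f j (flip a y)) ≤
        (univ.filter fun i => ρ i = none).card * val B (fun j => f j y) := by
  classical
  obtain ⟨T, hT⟩ : ∃ T : (I → Bool) → ℝ, ∀ x, T x = val B fun j => f j x := ⟨_, fun _ => rfl⟩
  obtain ⟨J, hJ⟩ : ∃ J : Finset I, J = univ.filter fun i => ρ i = none := ⟨_, rfl⟩
  have hb := balance_val B f hf ρ hs
  simp only [← hT, ← hJ] at hb ⊢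
  rw [← hJ] at hs
  have hJm : ∀ a ∈ J, ρ a = none := by
    intro a ha
    rw [hJ, mem_filter] at ha
    exact ha.2
  have hflip : ∀ a ∈ J, ∀ x, IsOdd (ov ρ (flip a x)) ↔ ¬ IsOdd (ov ρ x) := by
    intro a ha x
    rw [ov_flip ρ a (hJm a ha)]
    exact odd_flip a _
  have h1 : ∑ x ∈ univ.filter (fun x : I → Bool => IsOdd (ov ρ x)), T x =
      ∑ x ∈ univ.filter (fun x : I → Bool => ¬ IsOdd (ov ρ x)), T x := by
    have h2 := sum_filter_add_sum_filter_not (univ : Finset (I → Bool))
      (fun x : I → Bool => IsOdd (ov ρ x)) (fun x => sgn (ov ρ x) * T x)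
    rw [hb] at h2
    have h3 : ∑ x ∈ univ.filter (fun x : I → Bool => IsOdd (ov ρ x)), sgn (ov ρ x) * T x =
        ∑ x ∈ univ.filter (fun x : I → Bool => IsOdd (ov ρ x)), T x := by
      apply sum_congr rfl
      intro x hx
      rw [mem_filter] at hx
      unfold sgn
      rw [if_pos hx.2, one_mul]
    have h4 : ∑ x ∈ univ.filter (fun x : I → Bool => ¬ IsOdd (ov ρ x)), sgn (ov ρ x) * T x =
        - ∑ x ∈ univ.filter (fun x : I → Bool => ¬ IsOdd (ov ρ x)), T x := by
      rw [← sum_neg_distrib]
      apply sum_congr rfl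
      intro x hx
      rw [mem_filter] at hx
      unfold sgn
      rw [if_neg hx.2]
      ring
    rw [h3, h4] at h2
    linarith
  have hne : (univ.filter fun x : I → Bool => IsOdd (ov ρ x)).Nonempty := by
    obtain ⟨a, ha⟩ : J.Nonempty := card_pos.1 (by omega)
    by_cases h0 : IsOdd (ov ρ fun _ => false)
    · exact ⟨_, mem_filter.2 ⟨mem_univ _, h0⟩⟩
    · exact ⟨flip a fun _ => false, mem_filter.2 ⟨mem_univ _, (hflip a ha _).2 h0⟩⟩
  have h2 : ∑ x ∈ univ.filter (fun x : I → Bool => IsOdd (ov ρ x)), ∑ a ∈ J, T (flip a x) ≤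
      ∑ x ∈ univ.filter (fun x : I → Bool => IsOdd (ov ρ x)), J.card * T x := by
    rw [sum_comm, ← mul_sum, h1]
    have h3 : ∀ a ∈ J, ∑ x ∈ univ.filter (fun x : I → Bool => IsOdd (ov ρ x)), T (flip a x) =
        ∑ x ∈ univ.filter (fun x : I → Bool => ¬ IsOdd (ov ρ x)), T x := by
      intro a ha
      refine sum_bij' (fun x _ => flip a x) (fun x _ => flip a x) ?_ ?_ ?_ ?_ ?_
      · intro x hx
        rw [mem_filter] at hx ⊢
        exact ⟨mem_univ _, by rw [hflip a ha]; exact not_not.2 hx.2⟩
      · intro x hx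
        rw [mem_filter] at hx ⊢
        exact ⟨mem_univ _, (hflip a ha x).2 hx.2⟩
      · intro x _
        exact Pool.Agent.Y601.SSE.flip_flip a x
      · intro x _
        exact Pool.Agent.Y601.SSE.flip_flip a x
      · intro x _
        rfl
    rw [sum_congr rfl h3, sum_const, nsmul_eq_mul]
  obtain ⟨y, hy, hy2⟩ := exists_le_of_sum_le hne h2
  rw [mem_filter] at hy
  exact ⟨y, hy.2, hy2⟩

end bal

section window

/-- the leading digits determine a number up to the factor `1 - 2 ^ (-l)` -/
theorem window (B l : ℕ) (b : ℕ → Bool) : ∃ W : Finset ℕ, W.card ≤ l + 1 ∧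
    ∀ b' : ℕ → Bool, (∀ j ∈ W, b' j = b j) → (1 - (1 / 2) ^ l) * val B b ≤ val B b' := by
  by_cases h0 : ∀ j < B, b j = false
  · refine ⟨∅, by simp, fun b' _ => ?_⟩
    have : val B b = 0 := by
      unfold val
      apply sum_eq_zero
      intro j hj
      rw [h0 j (mem_range.1 hj)]
      simp
    rw [this, mul_zero]
    exact val_nonneg _ _
  push Not at h0
  obtain ⟨j1, hj1, hb1⟩ := h0
  have hb1' : b j1 = true := by simpa using hb1
  obtain ⟨j0, hj0⟩ : ∃ j0, IsGreatest {j | j < B ∧ b j = true} j0 := by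
    have hfin : (((range B).filter fun j => b j = true)).Nonempty :=
      ⟨j1, mem_filter.2 ⟨mem_range.2 hj1, hb1'⟩⟩
    refine ⟨((range B).filter fun j => b j = true).max' hfin, ?_⟩
    have h := isGreatest_max' _ hfin
    simpa using h
  refine ⟨Icc (j0 - l) j0, ?_, fun b' hb' => ?_⟩
  · rw [Nat.card_Icc]
    omega
  have hz : ∀ j ∈ range B, j0 < j → b j = false := by
    intro j hj hjj
    by_contra hc
    have hin : j ∈ {j | j < B ∧ b j = true} := ⟨mem_range.1 hj, by simpa using hc⟩
    have := hj0.2 hin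
    omega
  have h1 : val B b ≤ (∑ j ∈ range B, if j ∈ Icc (j0 - l) j0 then
      (2 : ℝ) ^ j * (if b j = true then 1 else 0) else 0) + ∑ j ∈ range (j0 - l), (2 : ℝ) ^ j := by
    have h2 : ∑ j ∈ range (j0 - l), (2 : ℝ) ^ j = ∑ j ∈ range B, if j < j0 - l then (2 : ℝ) ^ j else 0 := by
      rw [← sum_filter]
      apply sum_congr _ fun _ _ => rfl
      ext j
      simp only [mem_range, mem_filter]
      have := hj0.1.1
      omega
    rw [h2, ← sum_add_distrib]
    unfold val
    apply sum_le_sum
    intro j hj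
    rcases lt_or_ge j (j0 - l) with h3 | h3
    · have h4 : j ∉ Icc (j0 - l) j0 := by rw [mem_Icc]; omega
      simp only [h3, h4, if_true, if_false, zero_add]
      split_ifs <;> simp
    · rcases Nat.lt_or_ge j0 j with h4 | h4
      · have h5 : j ∉ Icc (j0 - l) j0 := by rw [mem_Icc]; omega
        have h6 : ¬ j < j0 - l := by omega
        simp only [h5, h6, hz j hj h4, if_false]
        simp
      · have h5 : j ∈ Icc (j0 - l) j0 := by rw [mem_Icc]; omega
        have h6 : ¬ j < j0 - l := by omega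
        simp only [h5, h6, if_false, if_true, add_zero]
        exact le_rfl
  have h3 : (∑ j ∈ range B, if j ∈ Icc (j0 - l) j0 then
      (2 : ℝ) ^ j * (if b j = true then 1 else 0) else 0) ≤ val B b' := by
    unfold val
    apply sum_le_sum
    intro j _
    split_ifs with h4 h5 h6
    · exact le_rfl
    · rw [hb' j h4] at h6
      exact absurd h5 h6
    · simp
    · simp
    · positivity
    · simp
  have h4 : ∑ j ∈ range (j0 - l), (2 : ℝ) ^ j ≤ (1 / 2) ^ l * 2 ^ j0 := by
    have h5 : ∑ j ∈ range (j0 - l), (2 : ℝ) ^ j = 2 ^ (j0 - l) - 1 := by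
      rw [geom_sum_eq (by norm_num)]
      norm_num
    rw [h5]
    rcases le_or_gt l j0 with h6 | h6
    · have h7 : (2 : ℝ) ^ j0 = 2 ^ (j0 - l) * 2 ^ l := by
        rw [← pow_add]
        congr 1
        omega
      rw [h7]
      have h8 : ((1 : ℝ) / 2) ^ l * 2 ^ l = 1 := by
        rw [← mul_pow]
        norm_num
      have h9 : ((1 : ℝ) / 2) ^ l * (2 ^ (j0 - l) * 2 ^ l) = 2 ^ (j0 - l) := by
        calc ((1 : ℝ) / 2) ^ l * (2 ^ (j0 - l) * 2 ^ l)
            = 2 ^ (j0 - l) * (((1 : ℝ) / 2) ^ l * 2 ^ l) := by ring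
          _ = _ := by rw [h8, mul_one]
      rw [h9]
      linarith
    · rw [Nat.sub_eq_zero_of_le h6.le, pow_zero, sub_self]
      positivity
  have h5 : (2 : ℝ) ^ j0 ≤ val B b := by
    unfold val
    refine le_trans ?_ (single_le_sum (f := fun j => (2 : ℝ) ^ j * if b j = true then 1 else 0)
      (fun j _ => ?_) (mem_range.2 hj0.1.1))
    · simp [hj0.1.2]
    · show (0 : ℝ) ≤ (2 : ℝ) ^ j * if b j = true then 1 else 0
      split_ifs <;> positivity
  have h6 : ((1 : ℝ) / 2) ^ l * 2 ^ j0 ≤ (1 / 2) ^ l * val B b :=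
    mul_le_mul_of_nonneg_left h5 (by positivity)
  linarith

end window

end Pool.Agent.Q231.VCR
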