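import Mathlib

set_option autoImplicit false

/-!
The lower part of a binomial distribution with parameter slightly above one half.
-/

namespace Pool.Agent.Q231.VCR

open Finset

lemma central_sq (n : ℕ) : Nat.centralBinom n ^ 2 * (2 * n + 1) ≤ 16 ^ n := by
  induction n with
  | zero => simp
  | succ n ih =>
    have h := Nat.succ_mul_centralBinom_succ n
    have h1 : (n + 1) ^ 2 * (Nat.centralBinom (n + 1) ^ 2 * (2 * (n + 1) + 1)) ≤
        (n + 1) ^ 2 * 16 ^ (n + 1) := by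
      calc (n + 1) ^ 2 * (Nat.centralBinom (n + 1) ^ 2 * (2 * (n + 1) + 1))
          = ((n + 1) * Nat.centralBinom (n + 1)) ^ 2 * (2 * n + 3) := by ring
        _ = (2 * (2 * n + 1) * Nat.centralBinom n) ^ 2 * (2 * n + 3) := by rw [h]
        _ = (Nat.centralBinom n ^ 2 * (2 * n + 1)) * (4 * ((2 * n + 1) * (2 * n + 3))) := by ring
        _ ≤ 16 ^ n * (4 * ((2 * n + 1) * (2 * n + 3))) := Nat.mul_le_mul_right _ ih
        _ ≤ 16 ^ n * (4 * (4 * (n + 1) ^ 2)) := by
            apply Nat.mul_le_mul_left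
            apply Nat.mul_le_mul_left
            nlinarith
        _ = (n + 1) ^ 2 * 16 ^ (n + 1) := by ring
    exact Nat.le_of_mul_le_mul_left h1 (by positivity)

lemma middle_sq (r : ℕ) : r.choose (r / 2) ^ 2 * (r + 1) ≤ 4 ^ r := by
  rcases Nat.even_or_odd' r with ⟨n, rfl | rfl⟩
  · have h := central_sq n
    rw [Nat.centralBinom] at h
    rw [Nat.mul_div_cancel_left n (by norm_num), pow_mul]
    exact h
  · have h := central_sq (n + 1)
    have e1 : (2 * n + 1) / 2 = n := by omega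
    have e2 : Nat.centralBinom (n + 1) = 2 * (2 * n + 1).choose n := by
      rw [Nat.centralBinom, show 2 * (n + 1) = (2 * n + 1) + 1 by ring,
        Nat.choose_succ_succ' (2 * n + 1) n]
      have : (2 * n + 1).choose (n + 1) = (2 * n + 1).choose n := by
        apply Nat.choose_symm_of_eq_add
        ring
      omega
    rw [e1]
    rw [e2] at h
    have h2 : 4 * ((2 * n + 1).choose n ^ 2 * (2 * n + 1 + 1)) ≤ 4 * 4 ^ (2 * n + 1) := by
      calc 4 * ((2 * n + 1).choose n ^ 2 * (2 * n + 1 + 1))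
          ≤ (2 * (2 * n + 1).choose n) ^ 2 * (2 * (n + 1) + 1) := by
            have : (2 * (2 * n + 1).choose n) ^ 2 * (2 * (n + 1) + 1) =
              4 * ((2 * n + 1).choose n ^ 2 * (2 * n + 1 + 1)) + 4 * (2 * n + 1).choose n ^ 2 := by
              ring
            omega
        _ ≤ 16 ^ (n + 1) := h
        _ = 4 * 4 ^ (2 * n + 1) := by
            rw [show (16 : ℕ) = 4 ^ 2 by norm_num, ← pow_mul, ← pow_succ']
            congr 1
    omega

/-- the lower part of the symmetric distribution -/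
lemma low_half (q : ℕ) (hq : 1 ≤ q) :
    7 * 2 ^ (64 * q ^ 2 + q) ≤
      16 * ∑ j ∈ range (32 * q ^ 2 + 1), (64 * q ^ 2 + q).choose j := by
  obtain ⟨i, hi⟩ : ∃ i, i = 32 * q ^ 2 := ⟨_, rfl⟩
  obtain ⟨r, hr⟩ : ∃ r, r = 64 * q ^ 2 + q := ⟨_, rfl⟩
  rw [← hi, ← hr]
  have hr2 : r = 2 * i + q := by omega
  have hmid : 8 * q * r.choose (r / 2) ≤ 2 ^ r := by
    have h := middle_sq r
    have h1 : (8 * q * r.choose (r / 2)) ^ 2 ≤ (2 ^ r) ^ 2 := by
      calc (8 * q * r.choose (r / 2)) ^ 2 = r.choose (r / 2) ^ 2 * (64 * q ^ 2) := by ring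
        _ ≤ r.choose (r / 2) ^ 2 * (r + 1) := Nat.mul_le_mul_left _ (by omega)
        _ ≤ 4 ^ r := h
        _ = (2 ^ r) ^ 2 := by rw [← pow_mul, mul_comm r 2, pow_mul]; norm_num
    exact (Nat.pow_le_pow_iff_left (by norm_num)).1 h1
  have hsum : ∑ j ∈ range (i + 1), r.choose j + ∑ j ∈ range (q - 1), r.choose (i + 1 + j) +
      ∑ j ∈ range (i + 1), r.choose (i + q + j) = 2 ^ r := by
    rw [← Nat.sum_range_choose r]
    have e1 : r + 1 = (i + 1) + (q - 1) + (i + 1) := by omega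
    rw [e1, sum_range_add (fun j => r.choose j) (i + 1 + (q - 1)) (i + 1),
      sum_range_add (fun j => r.choose j) (i + 1) (q - 1)]
    congr 1
    apply sum_congr rfl
    intro j _
    congr 1
    omega
  have hsym : ∑ j ∈ range (i + 1), r.choose (i + q + j) = ∑ j ∈ range (i + 1), r.choose j := by
    rw [← sum_range_reflect (fun j => r.choose j)]
    apply sum_congr rfl
    intro j hj
    rw [mem_range] at hj
    apply Nat.choose_symm_of_eq_add
    omega
  have hm2 : ∑ j ∈ range (q - 1), r.choose (i + 1 + j) ≤ (q - 1) * r.choose (r / 2) := by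
    refine (sum_le_card_nsmul _ _ (r.choose (r / 2)) fun j _ => Nat.choose_le_middle _ _).trans ?_
    rw [card_range, smul_eq_mul]
  rw [hsym] at hsum
  have h3 : 8 * ((q - 1) * r.choose (r / 2)) ≤ 2 ^ r := by
    have : 8 * ((q - 1) * r.choose (r / 2)) ≤ 8 * q * r.choose (r / 2) := by
      rw [mul_assoc]
      exact Nat.mul_le_mul_left _ (Nat.mul_le_mul_right _ (Nat.sub_le _ _))
    omega
  omega

/-- Cauchy–Schwarz -/
lemma low_shift (r i : ℕ) (hi : i ≤ r) {c : ℝ} (h0 : 0 < c) (h1 : c < 1) :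
    ((∑ j ∈ range (i + 1), (r.choose j : ℝ)) / 2 ^ r) ^ 2 * (4 * c * (1 - c)) ^ r ≤
      ∑ j ∈ range (i + 1), (r.choose j : ℝ) * (c ^ j * (1 - c) ^ (r - j)) := by
  have hc' : 0 < 1 - c := by linarith
  obtain ⟨a, ha⟩ : ∃ a : ℝ, a = 1 / (4 * c) := ⟨_, rfl⟩
  obtain ⟨b, hb⟩ : ∃ b : ℝ, b = 1 / (4 * (1 - c)) := ⟨_, rfl⟩
  have ha0 : 0 < a := by rw [ha]; positivity
  have hb0 : 0 < b := by rw [hb]; positivity
  have hcs : (∑ j ∈ range (i + 1), (r.choose j : ℝ) * (1 / 2) ^ r) ^ 2 ≤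
      (∑ j ∈ range (i + 1), (r.choose j : ℝ) * (c ^ j * (1 - c) ^ (r - j))) *
        ∑ j ∈ range (i + 1), (r.choose j : ℝ) * (a ^ j * b ^ (r - j)) := by
    apply Finset.sum_sq_le_sum_mul_sum_of_sq_le_mul
    · intro j _; positivity
    · intro j _; positivity
    · intro j hj
      refine le_of_eq ?_
      rw [mem_range] at hj
      have e1 : c * a = 1 / 4 := by rw [ha]; field_simp
      have e2 : (1 - c) * b = 1 / 4 := by rw [hb]; field_simp
      have e3 : (1 / 2 : ℝ) ^ r * (1 / 2) ^ r = (1 / 4) ^ j * (1 / 4) ^ (r - j) := by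
        rw [← mul_pow, ← pow_add]
        congr 1
        · norm_num
        · omega
      calc ((r.choose j : ℝ) * (1 / 2) ^ r) ^ 2
          = (r.choose j : ℝ) ^ 2 * ((1 / 2) ^ r * (1 / 2) ^ r) := by ring
        _ = (r.choose j : ℝ) ^ 2 * ((c * a) ^ j * ((1 - c) * b) ^ (r - j)) := by
            rw [e3, e1, e2]
        _ = _ := by rw [mul_pow, mul_pow]; ring
  have hfull : ∑ j ∈ range (i + 1), (r.choose j : ℝ) * (a ^ j * b ^ (r - j)) ≤ (a + b) ^ r := by
    rw [add_pow]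
    refine (sum_le_sum_of_subset_of_nonneg (range_mono (by omega : i + 1 ≤ r + 1)) ?_).trans
      (le_of_eq ?_)
    · intro j _ _; positivity
    · apply sum_congr rfl; intro j _; ring
  have hab : a + b = 1 / (4 * c * (1 - c)) := by
    rw [ha, hb]; field_simp; ring
  have hP : (0 : ℝ) ≤ ∑ j ∈ range (i + 1), (r.choose j : ℝ) * (c ^ j * (1 - c) ^ (r - j)) := by
    apply sum_nonneg; intro j _; positivity
  have h2 := hcs.trans (mul_le_mul_of_nonneg_left hfull hP)
  have hcc : (0 : ℝ) < (4 * c * (1 - c)) ^ r := by positivity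
  have e5 : (1 / (4 * c * (1 - c))) ^ r * (4 * c * (1 - c)) ^ r = 1 := by
    rw [← mul_pow, one_div, inv_mul_cancel₀ (by positivity), one_pow]
  rw [← sum_mul, hab] at h2
  have h3 := mul_le_mul_of_nonneg_right h2 hcc.le
  rw [mul_assoc (∑ j ∈ range (i + 1), (r.choose j : ℝ) * (c ^ j * (1 - c) ^ (r - j))), e5,
    mul_one] at h3
  refine le_trans (le_of_eq ?_) h3
  rw [div_pow 1 2 r, one_pow, mul_one_div]

/-- the lower part for a parameter slightly above one half -/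
lemma low_bound (q : ℕ) (hq : 1 ≤ q) {c : ℝ} (h0 : 1 / 2 ≤ c) (h1 : c ≤ 1 / 2 + 1 / (64 * q)) :
    (179 / 1000 : ℝ) ≤ ∑ j ∈ range (32 * q ^ 2 + 1), ((64 * q ^ 2 + q).choose j : ℝ) *
      (c ^ j * (1 - c) ^ (64 * q ^ 2 + q - j)) := by
  have hq1 : (1 : ℝ) ≤ q := by exact_mod_cast hq
  have hδ : c - 1 / 2 ≤ 1 / (64 * q) := by linarith
  have hd1 : (1 : ℝ) / (64 * q) ≤ 1 / 64 := by
    apply one_div_le_one_div_of_le (by norm_num)
    linarith
  have hcs := low_shift (64 * q ^ 2 + q) (32 * q ^ 2) (by omega) (c := c) (by linarith) (by linarith)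
  refine le_trans ?_ hcs
  have hh : (7 / 16 : ℝ) ≤ (∑ j ∈ range (32 * q ^ 2 + 1), ((64 * q ^ 2 + q).choose j : ℝ)) /
      2 ^ (64 * q ^ 2 + q) := by
    rw [le_div_iff₀ (by positivity)]
    have h := low_half q hq
    have h2 : ((7 * 2 ^ (64 * q ^ 2 + q) : ℕ) : ℝ) ≤
      ((16 * ∑ j ∈ range (32 * q ^ 2 + 1), (64 * q ^ 2 + q).choose j : ℕ) : ℝ) := by
      exact_mod_cast h
    push_cast at h2
    linarith
  have hsq : (49 / 256 : ℝ) ≤ ((∑ j ∈ range (32 * q ^ 2 + 1), ((64 * q ^ 2 + q).choose j : ℝ)) /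
      2 ^ (64 * q ^ 2 + q)) ^ 2 := by nlinarith
  have hbern : (1 - 260 / 4096 : ℝ) ≤ (4 * c * (1 - c)) ^ (64 * q ^ 2 + q) := by
    have e1 : 4 * c * (1 - c) = 1 + (-(4 * (c - 1 / 2) ^ 2)) := by ring
    have hδ2 : (c - 1 / 2) ^ 2 ≤ (1 / (64 * q)) ^ 2 := by
      apply pow_le_pow_left₀ (by linarith) hδ
    have hδ3 : (1 / (64 * q) : ℝ) ^ 2 = 1 / (4096 * q ^ 2) := by
      field_simp; norm_num
    have hsmall : 4 * (c - 1 / 2) ^ 2 ≤ 1 := by
      have : (1 / (64 * q) : ℝ) ^ 2 ≤ (1 / 64) ^ 2 := by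
        apply pow_le_pow_left₀ (by positivity) hd1
      nlinarith
    rw [e1]
    refine le_trans ?_ (one_add_mul_le_pow (by linarith) _)
    have h3 : ((64 * q ^ 2 + q : ℕ) : ℝ) * (4 * (c - 1 / 2) ^ 2) ≤ 260 / 4096 := by
      have h4 : ((64 * q ^ 2 + q : ℕ) : ℝ) ≤ 65 * q ^ 2 := by
        push_cast
        nlinarith
      calc ((64 * q ^ 2 + q : ℕ) : ℝ) * (4 * (c - 1 / 2) ^ 2)
          ≤ (65 * q ^ 2) * (4 * (1 / (4096 * q ^ 2))) := by
            apply mul_le_mul h4 _ (by positivity) (by positivity)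
            rw [← hδ3]
            linarith
        _ = 260 / 4096 := by field_simp; norm_num
    linarith
  calc (179 / 1000 : ℝ) ≤ 49 / 256 * (1 - 260 / 4096) := by norm_num
    _ ≤ _ := mul_le_mul hsq hbern (by norm_num) (by positivity)

end Pool.Agent.Q231.VCR
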