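import Pool.Agent.H568R2.Defs

set_option autoImplicit false

/-!
Reductions of small depth from parity to the approximation of the minimum weight vertex cover.
-/

namespace Pool.Agent.Q231.VCR

open Finset DomAC0

/-- `K` is a vertex cover of `G`. -/
def IsCover {V : Type} (G : SimpleGraph V) (K : Finset V) : Prop :=
  ∀ u v, G.Adj u v → u ∈ K ∨ v ∈ K

/-- the number whose binary digits are the values of the nodes `d 0, ..., d (B - 1)` of the circuit
on the input `x` (`d 0` is the least significant digit) -/
noncomputable def num {J : Type} (C : Circuit J) (B : ℕ) (d : ℕ → J ⊕ Fin C.size)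
    (x : J → Bool) : ℝ :=
  ∑ j ∈ range B, 2 ^ j * if C.nodeVal x (d j) = true then 1 else 0

/-- A many-one reduction of depth `h` from parity on `N` bits to the gap version of the minimum
weight vertex cover problem with ratio `c`: a circuit with NOT gates and AND and OR gates of
unbounded fan-in, some nodes of which, of depth at most `h`, give for each input `x` a graph on `V`
(`u` and `v` are adjacent if the node `adj u v` or the node `adj v u` is true), the weights of its
vertices and a threshold, both written in binary with `B` digits; if the number of ones of `x` is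
even then some vertex cover has weight at most the threshold, and if it is odd then every vertex
cover has weight more than `c` times the threshold. -/
structure GapReduction (N h : ℕ) (c : ℝ) where
  C : Circuit (Fin N)
  V : Type
  fin : Fintype V
  B : ℕ
  adj : V → V → Fin N ⊕ Fin C.size
  wt : V → ℕ → Fin N ⊕ Fin C.size
  thr : ℕ → Fin N ⊕ Fin C.size
  adj_depth : ∀ u v, C.nodeDepth (adj u v) ≤ h
  wt_depth : ∀ v j, C.nodeDepth (wt v j) ≤ h
  thr_depth : ∀ j, C.nodeDepth (thr j) ≤ h
  yes : ∀ x : Fin N → Bool, ¬ Odd (univ.filter fun i => x i = true).card →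
    ∃ K : Finset V, IsCover (SimpleGraph.fromRel fun u v => C.nodeVal x (adj u v) = true) K ∧
      ∑ v ∈ K, num C B (wt v) x ≤ num C B thr x
  no : ∀ x : Fin N → Bool, Odd (univ.filter fun i => x i = true).card →
    ∀ K : Finset V, IsCover (SimpleGraph.fromRel fun u v => C.nodeVal x (adj u v) = true) K →
      c * num C B thr x < ∑ v ∈ K, num C B (wt v) x

/-- the graph given by the reduction on the input `x` -/
def GapReduction.graph {N h : ℕ} {c : ℝ} (R : GapReduction N h c) (x : Fin N → Bool) :
    SimpleGraph R.V :=
  SimpleGraph.fromRel fun u v => R.C.nodeVal x (R.adj u v) = true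

/-- all vertices of the graphs given by the reduction have degree at most `Δ` -/
def GapReduction.DegreeLE {N h : ℕ} {c : ℝ} (R : GapReduction N h c) (Δ : ℝ) : Prop :=
  ∀ (x : Fin N → Bool) (v : R.V), (((R.graph x).neighborSet v).ncard : ℝ) ≤ Δ

end Pool.Agent.Q231.VCR
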