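import Pool.Agent.Q231.VCR.Tail
import Pool.Agent.Q231.VCR.Defs

set_option autoImplicit false

/-!
Rounding a family of almost vertex covers: if every edge is missed by few members of the family, then
the vertices which lie in slightly less than half of the members of a random tuple, together with one
end of each edge missed by them, form a vertex cover of small weight.
-/

namespace Pool.Agent.Q231.VCR

open Finset
open scoped Classical

variable {V : Type} [Fintype V] {ι : Type} [Fintype ι] [DecidableEq ι]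

/-- the sum of the smaller weights of the edges -/
noncomputable def edgeMin (G : SimpleGraph V) (w : V → ℝ) : ℝ :=
  ∑ p : V × V, if G.Adj p.1 p.2 ∧ w p.1 ≤ w p.2 then w p.1 else 0

lemma sum_one (G : SimpleGraph V) (w : V → ℝ) (hw : ∀ v, 0 ≤ w v) {Δ : ℝ}
    (hΔ : ∀ v, ((univ.filter fun u => G.Adj v u).card : ℝ) ≤ Δ) (K : Finset V) :
    (∑ u : V, ∑ v : V, if G.Adj u v ∧ u ∈ K then w u else 0) ≤ Δ * ∑ v ∈ K, w v := by
  have h1 : ∀ u : V, (∑ v : V, if G.Adj u v ∧ u ∈ K then w u else 0) ≤
      if u ∈ K then Δ * w u else 0 := by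
    intro u
    by_cases hu : u ∈ K
    · simp only [hu, and_true, if_true]
      rw [← sum_filter, sum_const, nsmul_eq_mul]
      exact mul_le_mul_of_nonneg_right (hΔ u) (hw u)
    · simp [hu]
  refine (sum_le_sum fun u _ => h1 u).trans (le_of_eq ?_)
  rw [mul_sum, ← sum_filter]
  simp

lemma edgeMin_le (G : SimpleGraph V) (w : V → ℝ) (hw : ∀ v, 0 ≤ w v) {Δ : ℝ}
    (hΔ : ∀ v, ((univ.filter fun u => G.Adj v u).card : ℝ) ≤ Δ) (K : Finset V) (hK : IsCover G K) :
    edgeMin G w ≤ 2 * Δ * ∑ v ∈ K, w v := by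
  have h1 : edgeMin G w ≤ (∑ p : V × V, if G.Adj p.1 p.2 ∧ p.1 ∈ K then w p.1 else 0) +
      ∑ p : V × V, if G.Adj p.1 p.2 ∧ p.2 ∈ K then w p.2 else 0 := by
    unfold edgeMin
    rw [← sum_add_distrib]
    refine sum_le_sum fun p _ => ?_
    by_cases h : G.Adj p.1 p.2 ∧ w p.1 ≤ w p.2
    · rw [if_pos h]
      rcases hK p.1 p.2 h.1 with h2 | h2
      · rw [if_pos ⟨h.1, h2⟩]
        have : 0 ≤ if G.Adj p.1 p.2 ∧ p.2 ∈ K then w p.2 else 0 := by
          split_ifs
          · exact hw _
          · exact le_rfl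
        linarith
      · rw [if_pos (c := G.Adj p.1 p.2 ∧ p.2 ∈ K) ⟨h.1, h2⟩]
        have : 0 ≤ if G.Adj p.1 p.2 ∧ p.1 ∈ K then w p.1 else 0 := by
          split_ifs
          · exact hw _
          · exact le_rfl
        linarith [h.2]
    · rw [if_neg h]
      apply add_nonneg
      · split_ifs
        · exact hw _
        · exact le_rfl
      · split_ifs
        · exact hw _
        · exact le_rfl
  have h2 : (∑ p : V × V, if G.Adj p.1 p.2 ∧ p.1 ∈ K then w p.1 else 0) ≤ Δ * ∑ v ∈ K, w v := by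
    rw [Fintype.sum_prod_type]
    exact sum_one G w hw hΔ K
  have h3 : (∑ p : V × V, if G.Adj p.1 p.2 ∧ p.2 ∈ K then w p.2 else 0) ≤ Δ * ∑ v ∈ K, w v := by
    rw [Fintype.sum_prod_type, sum_comm]
    have := sum_one G w hw hΔ K
    simpa only [G.adj_comm] using this
  linarith

/-- the rounding theorem -/
theorem round (G : SimpleGraph V) (w : V → ℝ) (hw : ∀ v, 0 ≤ w v) (D : ι → Finset V) (r m q t : ℕ)
    (hq : q + 2 * m ≤ r + 2) (hm : 1 ≤ m)
    (hmiss : ∀ u v, G.Adj u v → (univ.filter fun a => u ∉ D a ∧ v ∉ D a).card ≤ t)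
    (L : ℝ) (hL : ∀ S : Finset ι, (tail r m S : ℝ) ≤
      L * (S.card / Fintype.card ι : ℝ) * (Fintype.card ι : ℝ) ^ r) (hM : 0 < Fintype.card ι) :
    ∃ K : Finset V, IsCover G K ∧
      ∑ v ∈ K, w v ≤ L * ((∑ a, ∑ v ∈ D a, w v) / Fintype.card ι) +
        r.choose q * ((t : ℝ) / Fintype.card ι) ^ q * edgeMin G w := by
  have hMr : (0 : ℝ) < Fintype.card ι := by exact_mod_cast hM
  have : Nonempty ι := Fintype.card_pos_iff.1 hM
  have hqr : q ≤ r := by omega
  obtain ⟨S, hS⟩ : ∃ S : V → Finset ι, ∀ u, S u = univ.filter fun a => u ∈ D a := ⟨_, fun _ => rfl⟩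
  obtain ⟨K, hK⟩ : ∃ K : (Fin r → ι) → Finset V, ∀ f, K f = univ.filter fun u =>
      m ≤ hits f (S u) ∨ ∃ v, (G.Adj u v ∧ w u ≤ w v) ∧ hits f (S u) < m ∧ hits f (S v) < m :=
    ⟨_, fun _ => rfl⟩
  have hcov : ∀ f, IsCover G (K f) := by
    intro f u v huv
    simp only [hK, mem_filter, mem_univ, true_and]
    by_cases h1 : m ≤ hits f (S u)
    · exact Or.inl (Or.inl h1)
    by_cases h2 : m ≤ hits f (S v)
    · exact Or.inr (Or.inl h2)
    push Not at h1 h2
    rcases le_total (w u) (w v) with h3 | h3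
    · exact Or.inl (Or.inr ⟨v, ⟨huv, h3⟩, h1, h2⟩)
    · exact Or.inr (Or.inr ⟨u, ⟨huv.symm, h3⟩, h2, h1⟩)
  have hwt : ∀ f, ∑ v ∈ K f, w v ≤ (∑ u : V, if m ≤ hits f (S u) then w u else 0) +
      ∑ p : V × V, if (G.Adj p.1 p.2 ∧ w p.1 ≤ w p.2) ∧ hits f (S p.1) < m ∧ hits f (S p.2) < m
        then w p.1 else 0 := by
    intro f
    rw [Fintype.sum_prod_type, ← sum_add_distrib]
    have h1 : ∑ v ∈ K f, w v = ∑ u : V, if u ∈ K f then w u else 0 := by
      rw [← sum_filter]
      simp
    rw [h1]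
    refine sum_le_sum fun u _ => ?_
    have h0 : ∀ v : V, 0 ≤ if (G.Adj u v ∧ w u ≤ w v) ∧ hits f (S u) < m ∧ hits f (S v) < m
        then w u else 0 := by
      intro v
      split_ifs
      · exact hw u
      · exact le_rfl
    have h00 := sum_nonneg fun v (_ : v ∈ (univ : Finset V)) => h0 v
    by_cases hu : u ∈ K f
    · rw [if_pos hu]
      rw [hK, mem_filter] at hu
      rcases hu.2 with h2 | ⟨v, hv⟩
      · rw [if_pos h2]
        linarith
      · have h3 : w u ≤ ∑ v : V, if (G.Adj u v ∧ w u ≤ w v) ∧ hits f (S u) < m ∧ hits f (S v) < m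
            then w u else 0 := by
          refine le_trans ?_ (single_le_sum (fun v _ => h0 v) (mem_univ v))
          rw [if_pos hv]
        have h4 : 0 ≤ if m ≤ hits f (S u) then w u else 0 := by
          split_ifs
          · exact hw u
          · exact le_rfl
        linarith
    · rw [if_neg hu]
      apply add_nonneg _ h00
      split_ifs
      · exact hw u
      · exact le_rfl
  -- summing over the tuples
  have hsum1 : ∑ f : Fin r → ι, (∑ u : V, if m ≤ hits f (S u) then w u else 0) ≤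
      L * ((∑ a, ∑ v ∈ D a, w v) / Fintype.card ι) * (Fintype.card ι : ℝ) ^ r := by
    rw [sum_comm]
    have h1 : ∀ u : V, (∑ f : Fin r → ι, if m ≤ hits f (S u) then w u else 0) ≤
        L * (w u * (S u).card / Fintype.card ι) * (Fintype.card ι : ℝ) ^ r := by
      intro u
      rw [← sum_filter, sum_const, nsmul_eq_mul]
      have h2 := mul_le_mul_of_nonneg_right (hL (S u)) (hw u)
      unfold tail at h2
      refine h2.trans (le_of_eq ?_)
      ring
    refine (sum_le_sum fun u _ => h1 u).trans (le_of_eq ?_)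
    rw [← sum_mul, ← mul_sum, ← sum_div]
    congr 3
    have h3 : ∀ u : V, w u * ((S u).card : ℝ) = ∑ a : ι, if u ∈ D a then w u else 0 := by
      intro u
      rw [hS, ← sum_filter, sum_const, nsmul_eq_mul, mul_comm]
    rw [sum_congr rfl fun u _ => h3 u, sum_comm]
    refine sum_congr rfl fun a _ => ?_
    rw [← sum_filter]
    simp
  have hsum2 : ∑ f : Fin r → ι, (∑ p : V × V, if (G.Adj p.1 p.2 ∧ w p.1 ≤ w p.2) ∧
      hits f (S p.1) < m ∧ hits f (S p.2) < m then w p.1 else 0) ≤
      r.choose q * ((t : ℝ) / Fintype.card ι) ^ q * edgeMin G w * (Fintype.card ι : ℝ) ^ r := by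
    rw [sum_comm]
    have h1 : ∀ p : V × V, (∑ f : Fin r → ι, if (G.Adj p.1 p.2 ∧ w p.1 ≤ w p.2) ∧
        hits f (S p.1) < m ∧ hits f (S p.2) < m then w p.1 else 0) ≤
        (r.choose q * ((t : ℝ) / Fintype.card ι) ^ q) *
          (if G.Adj p.1 p.2 ∧ w p.1 ≤ w p.2 then w p.1 else 0) * (Fintype.card ι : ℝ) ^ r := by
      intro p
      by_cases hp : G.Adj p.1 p.2 ∧ w p.1 ≤ w p.2
      · simp only [hp, and_self, true_and, if_true]
        rw [← sum_filter, sum_const, nsmul_eq_mul]
        have h2 : (univ.filter fun f : Fin r → ι => hits f (S p.1) < m ∧ hits f (S p.2) < m).card ≤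
            tail r q (univ.filter fun a => p.1 ∉ D a ∧ p.2 ∉ D a) := by
          unfold tail
          apply card_le_card
          intro f hf
          rw [mem_filter] at hf ⊢
          refine ⟨mem_univ _, ?_⟩
          have h3 : (univ : Finset (Fin r)) ⊆ ((univ.filter fun i => f i ∈ S p.1) ∪
              (univ.filter fun i => f i ∈ S p.2)) ∪
              (univ.filter fun i => f i ∈ univ.filter fun a => p.1 ∉ D a ∧ p.2 ∉ D a) := by
            intro i _
            simp only [hS, mem_union, mem_filter, mem_univ, true_and]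
            tauto
          have h4 := (card_le_card h3).trans (card_union_le _ _)
          have h5 := card_union_le (univ.filter fun i => f i ∈ S p.1)
            (univ.filter fun i => f i ∈ S p.2)
          rw [card_univ, Fintype.card_fin] at h4
          have h6 := hf.2
          unfold hits at h6 ⊢
          omega
        have h3 := choose_tail r q q (univ.filter fun a => p.1 ∉ D a ∧ p.2 ∉ D a)
        rw [Nat.choose_self, one_mul] at h3
        have h4 : (univ.filter fun a => p.1 ∉ D a ∧ p.2 ∉ D a).card ^ q ≤ t ^ q :=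
          Nat.pow_le_pow_left (hmiss _ _ hp.1) q
        have h5 : (univ.filter fun f : Fin r → ι => hits f (S p.1) < m ∧ hits f (S p.2) < m).card ≤
            r.choose q * (t ^ q * Fintype.card ι ^ (r - q)) :=
          h2.trans (h3.trans (Nat.mul_le_mul_left _ (Nat.mul_le_mul_right _ h4)))
        have h6 : ((univ.filter fun f : Fin r → ι =>
            hits f (S p.1) < m ∧ hits f (S p.2) < m).card : ℝ) ≤
            r.choose q * ((t : ℝ) ^ q * (Fintype.card ι : ℝ) ^ (r - q)) := by exact_mod_cast h5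
        refine (mul_le_mul_of_nonneg_right h6 (hw p.1)).trans (le_of_eq ?_)
        have e1 : (Fintype.card ι : ℝ) ^ r =
            (Fintype.card ι : ℝ) ^ q * (Fintype.card ι : ℝ) ^ (r - q) := by
          rw [← pow_add]
          congr 1
          omega
        rw [e1, div_pow]
        field_simp
      · simp [hp]
    refine (sum_le_sum fun p _ => h1 p).trans (le_of_eq ?_)
    rw [← sum_mul, ← mul_sum]
    rfl
  have hcard : ((univ : Finset (Fin r → ι)).card : ℝ) = (Fintype.card ι : ℝ) ^ r := by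
    rw [card_univ, Fintype.card_fun, Fintype.card_fin]
    push_cast
    rfl
  have htot : ∑ f : Fin r → ι, ∑ v ∈ K f, w v ≤ ∑ _f : Fin r → ι,
      (L * ((∑ a, ∑ v ∈ D a, w v) / Fintype.card ι) +
        r.choose q * ((t : ℝ) / Fintype.card ι) ^ q * edgeMin G w) := by
    rw [sum_const, nsmul_eq_mul, hcard]
    refine (sum_le_sum fun f _ => hwt f).trans ?_
    rw [sum_add_distrib]
    linarith [hsum1, hsum2]
  obtain ⟨f, _, hf⟩ := exists_le_of_sum_le univ_nonempty htot
  exact ⟨K f, hcov f, hf⟩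

end Pool.Agent.Q231.VCR
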