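import Pool.Agent.Q231.VCR.Bal
import Pool.Agent.Q231.VCR.Round

set_option autoImplicit false

/-!
No reduction, once a restriction has made all nodes shallow.
-/

namespace Pool.Agent.Q231.VCR

open Finset DomAC0 H568R2 Pool.Agent.TH163.AC3 Pool.Agent.Y601 Pool.Agent.Y601.SSE
open scoped Classical

lemma sens_card {N : ℕ} {s : ℕ} {f : (Fin N → Bool) → Bool} (hf : HasDT s f) (ρ : Restr (Fin N))
    (y : Fin N → Bool) :
    (univ.filter fun a : {i // ρ i = none} => f (SSE.flip a.1 y) ≠ f y).card ≤ s := by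
  refine le_trans ?_ (sens_le hf univ y)
  rw [← card_map (Function.Embedding.subtype fun i => ρ i = none)]
  apply card_le_card
  intro i hi
  rw [mem_map] at hi
  obtain ⟨a, ha, rfl⟩ := hi
  rw [mem_filter] at ha ⊢
  exact ⟨mem_univ _, ha.2⟩

theorem core {N h : ℕ} {c : ℝ} (R : GapReduction N h c) {Δ : ℝ} (hΔ : R.DegreeLE Δ)
    {s : ℕ} (hs : 1 ≤ s) (ρ : Restr (Fin N)) (hρ : Shallow R.C s h ρ)
    (hsM : s < Fintype.card {i // ρ i = none})
    (r m q l : ℕ) (hq : q + 2 * m ≤ r + 2) (hm : 1 ≤ m) (hl : 1 ≤ l) (L : ℝ)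
    (hL0 : 0 ≤ L)
    (hL : ∀ S : Finset {i // ρ i = none}, (tail r m S : ℝ) ≤
      L * (S.card / Fintype.card {i // ρ i = none} : ℝ) *
        (Fintype.card {i // ρ i = none} : ℝ) ^ r) (ε : ℝ)
    (hε : ε = r.choose q * ((((2 * l + 3) * s : ℕ) : ℝ) / Fintype.card {i // ρ i = none}) ^ q)
    (hδ : 2 * Δ * ε < 1) (hc : L ≤ c * (1 - (1 / 2) ^ l) * (1 - 2 * Δ * ε)) : False := by
  have := R.fin
  obtain ⟨M, hM⟩ : ∃ M : ℕ, M = Fintype.card {i // ρ i = none} := ⟨_, rfl⟩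
  have hcard : (univ.filter fun i => ρ i = none).card = M := by
    rw [hM, Fintype.card_subtype]
  have hMpos : 0 < M := by omega
  have hMr : (0 : ℝ) < M := by exact_mod_cast hMpos
  have hnode : ∀ n, R.C.nodeDepth n ≤ h → HasDT s (fun x => R.C.nodeVal (ov ρ x) n) :=
    fun n hn => node_dt R.C hs hρ n hn
  obtain ⟨y, hy1, hy2⟩ := exists_point R.B (fun j x => R.C.nodeVal (ov ρ x) (R.thr j))
    (fun j => hnode _ (R.thr_depth j)) ρ (by rw [hcard, hM]; exact hsM)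
  rw [hcard] at hy2
  -- the data at `y`
  obtain ⟨z, hz⟩ : ∃ z : {i // ρ i = none} → Fin N → Bool, ∀ a, z a = ov ρ (SSE.flip a.1 y) :=
    ⟨_, fun _ => rfl⟩
  obtain ⟨w, hw⟩ : ∃ w : (Fin N → Bool) → R.V → ℝ, ∀ x v, w x v = num R.C R.B (R.wt v) x :=
    ⟨_, fun _ _ => rfl⟩
  obtain ⟨T, hT⟩ : ∃ T : (Fin N → Bool) → ℝ, ∀ x, T x = num R.C R.B R.thr x := ⟨_, fun _ => rfl⟩
  have hw0 : ∀ x v, 0 ≤ w x v := by
    intro x v
    rw [hw]
    exact val_nonneg _ _
  have hT0 : ∀ x, 0 ≤ T x := by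
    intro x
    rw [hT]
    exact val_nonneg _ _
  have hTsum : ∑ a : {i // ρ i = none}, T (z a) ≤ M * T (ov ρ y) := by
    have h1 : ∑ a : {i // ρ i = none}, T (z a) =
        ∑ a ∈ univ.filter (fun i => ρ i = none), val R.B
          (fun j => R.C.nodeVal (ov ρ (SSE.flip a y)) (R.thr j)) := by
      rw [Finset.sum_subtype (univ.filter fun i => ρ i = none) (p := fun i => ρ i = none)
        (fun x => by simp)]
      simp only [hT, hz]
      rfl
    rw [h1, hT]
    exact hy2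
  have hev : ∀ a, ¬ Odd (univ.filter fun i => z a i = true).card := by
    intro a
    rw [hz, ov_flip ρ a.1 a.2, odd_flip]
    exact not_not.2 hy1
  choose Cv hCv hCw using fun a => R.yes (z a) (hev a)
  obtain ⟨κ, hκ⟩ : ∃ κ : ℝ, κ = 1 - (1 / 2) ^ l := ⟨_, rfl⟩
  have hκ0 : 0 < κ := by
    rw [hκ]
    have : ((1 : ℝ) / 2) ^ l < 1 := pow_lt_one₀ (by norm_num) (by norm_num) (by omega)
    linarith
  obtain ⟨D, hD⟩ : ∃ D : {i // ρ i = none} → Finset R.V, ∀ a, D a =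
      (Cv a).filter fun u => κ * w (ov ρ y) u ≤ w (z a) u := ⟨_, fun _ => rfl⟩
  -- the sensitive members
  obtain ⟨Sn, hSn⟩ : ∃ Sn : (Fin N ⊕ Fin R.C.size) → Finset {i // ρ i = none}, ∀ n, Sn n =
      univ.filter fun a => R.C.nodeVal (z a) n ≠ R.C.nodeVal (ov ρ y) n := ⟨_, fun _ => rfl⟩
  have hSnc : ∀ n, R.C.nodeDepth n ≤ h → (Sn n).card ≤ s := by
    intro n hn
    rw [hSn]
    simp only [hz]
    exact sens_card (hnode n hn) ρ y
  have hSnm : ∀ n a, a ∉ Sn n → R.C.nodeVal (z a) n = R.C.nodeVal (ov ρ y) n := by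
    intro n a ha
    rw [hSn, mem_filter] at ha
    push Not at ha
    exact ha (mem_univ _)
  have hwin : ∀ u : R.V, ∃ X : Finset {i // ρ i = none}, X.card ≤ (l + 1) * s ∧
      ∀ a, a ∉ X → κ * w (ov ρ y) u ≤ w (z a) u := by
    intro u
    obtain ⟨W, hW1, hW2⟩ := window R.B l (fun j => R.C.nodeVal (ov ρ y) (R.wt u j))
    refine ⟨W.biUnion fun j => Sn (R.wt u j), ?_, ?_⟩
    · refine card_biUnion_le.trans ((sum_le_card_nsmul _ _ s fun j _ =>
        hSnc _ (R.wt_depth u j)).trans ?_)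
      rw [smul_eq_mul]
      exact Nat.mul_le_mul_right s hW1
    · intro a ha
      rw [mem_biUnion] at ha
      push Not at ha
      have h1 := hW2 (fun j => R.C.nodeVal (z a) (R.wt u j)) fun j hj => hSnm _ a (ha j hj)
      rw [hκ, hw, hw]
      exact h1
  choose X hX1 hX2 using hwin
  have hmiss : ∀ u v, (R.graph (ov ρ y)).Adj u v →
      (univ.filter fun a => u ∉ D a ∧ v ∉ D a).card ≤ (2 * l + 3) * s := by
    intro u v huv
    obtain ⟨n, hn, hnS⟩ : ∃ n, R.C.nodeDepth n ≤ h ∧ ∀ a, a ∉ Sn n → (R.graph (z a)).Adj u v := by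
      unfold GapReduction.graph at huv
      rw [SimpleGraph.fromRel_adj] at huv
      rcases huv.2 with h1 | h1
      · refine ⟨R.adj u v, R.adj_depth u v, fun a ha => ?_⟩
        unfold GapReduction.graph
        rw [SimpleGraph.fromRel_adj]
        exact ⟨huv.1, Or.inl (by rw [hSnm _ a ha]; exact h1)⟩
      · refine ⟨R.adj v u, R.adj_depth v u, fun a ha => ?_⟩
        unfold GapReduction.graph
        rw [SimpleGraph.fromRel_adj]
        exact ⟨huv.1, Or.inr (by rw [hSnm _ a ha]; exact h1)⟩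
    have hsub : (univ.filter fun a => u ∉ D a ∧ v ∉ D a) ⊆ Sn n ∪ (X u ∪ X v) := by
      intro a ha
      rw [mem_filter] at ha
      by_contra hna
      rw [mem_union, mem_union] at hna
      push Not at hna
      have h1 := hCv a u v (hnS a hna.1)
      rcases h1 with h2 | h2
      · apply ha.2.1
        rw [hD, mem_filter]
        exact ⟨h2, hX2 u a hna.2.1⟩
      · apply ha.2.2
        rw [hD, mem_filter]
        exact ⟨h2, hX2 v a hna.2.2⟩
    refine (card_le_card hsub).trans ((card_union_le _ _).trans ?_)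
    have h1 := card_union_le (X u) (X v)
    have h2 := hSnc n hn
    have h3 := hX1 u
    have h4 := hX1 v
    calc (Sn n).card + (X u ∪ X v).card ≤ s + ((l + 1) * s + (l + 1) * s) := by omega
      _ = (2 * l + 3) * s := by ring
  obtain ⟨K, hK1, hK2⟩ := round (R.graph (ov ρ y)) (w (ov ρ y)) (hw0 _) D r m q ((2 * l + 3) * s)
    hq hm hmiss L hL (by omega)
  rw [← hM] at hK2 hε
  rw [← hε] at hK2
  have hDw : κ * ∑ a, ∑ v ∈ D a, w (ov ρ y) v ≤ M * T (ov ρ y) := by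
    refine le_trans ?_ hTsum
    rw [mul_sum]
    apply sum_le_sum
    intro a _
    rw [mul_sum]
    calc ∑ v ∈ D a, κ * w (ov ρ y) v ≤ ∑ v ∈ D a, w (z a) v := by
          apply sum_le_sum
          intro v hv
          rw [hD, mem_filter] at hv
          exact hv.2
      _ ≤ ∑ v ∈ Cv a, w (z a) v := by
          apply sum_le_sum_of_subset_of_nonneg
          · rw [hD]
            exact filter_subset _ _
          · intro v _ _
            exact hw0 _ _
      _ ≤ T (z a) := by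
          have := hCw a
          rw [hT]
          simp only [hw]
          exact this
  have hdeg : ∀ v, ((univ.filter fun u => (R.graph (ov ρ y)).Adj v u).card : ℝ) ≤ Δ := by
    intro v
    refine le_trans (le_of_eq ?_) (hΔ (ov ρ y) v)
    rw [← Set.ncard_coe_finset]
    congr 2
    ext u
    simp
  have hE := edgeMin_le (R.graph (ov ρ y)) (w (ov ρ y)) (hw0 _) hdeg K hK1
  have hno := R.no (ov ρ y) hy1 K hK1
  rw [← hT] at hno
  simp only [← hw] at hno
  have hε0 : 0 ≤ ε := by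
    rw [hε]
    positivity
  obtain ⟨wK, hwK⟩ : ∃ wK : ℝ, wK = ∑ v ∈ K, w (ov ρ y) v := ⟨_, rfl⟩
  obtain ⟨A, hA⟩ : ∃ A : ℝ, A = ∑ a, ∑ v ∈ D a, w (ov ρ y) v := ⟨_, rfl⟩
  rw [← hwK] at hK2 hE hno
  rw [← hA] at hK2 hDw
  have h1 : ε * edgeMin (R.graph (ov ρ y)) (w (ov ρ y)) ≤ ε * (2 * Δ * wK) :=
    mul_le_mul_of_nonneg_left hE hε0
  have h2 : (1 - 2 * Δ * ε) * wK ≤ L * (A / M) := by linarith
  have h3 : κ * (A / M) ≤ T (ov ρ y) := by
    rw [mul_div_assoc', div_le_iff₀ hMr]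
    linarith
  have h4 : κ * ((1 - 2 * Δ * ε) * wK) ≤ L * T (ov ρ y) := by
    calc κ * ((1 - 2 * Δ * ε) * wK) ≤ κ * (L * (A / M)) := mul_le_mul_of_nonneg_left h2 hκ0.le
      _ = L * (κ * (A / M)) := by ring
      _ ≤ _ := mul_le_mul_of_nonneg_left h3 hL0
  have h5 : 0 < κ * (1 - 2 * Δ * ε) := mul_pos hκ0 (by linarith)
  have h6 : κ * (1 - 2 * Δ * ε) * (c * T (ov ρ y)) < κ * (1 - 2 * Δ * ε) * wK :=
    mul_lt_mul_of_pos_left hno h5
  have h7 : L * T (ov ρ y) ≤ (c * (1 - (1 / 2) ^ l) * (1 - 2 * Δ * ε)) * T (ov ρ y) :=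
    mul_le_mul_of_nonneg_right hc (hT0 _)
  rw [← hκ] at h7
  have h8 : κ * (1 - 2 * Δ * ε) * (c * T (ov ρ y)) = (c * κ * (1 - 2 * Δ * ε)) * T (ov ρ y) := by
    ring
  have h9 : κ * ((1 - 2 * Δ * ε) * wK) = κ * (1 - 2 * Δ * ε) * wK := by ring
  linarith

end Pool.Agent.Q231.VCR
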