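import Pool.Agent.Q231.VCR.Tail
import Pool.Agent.Q231.VCR.Binom

set_option autoImplicit false

/-!
The proportion of the tuples which meet `S` in more than about half of their entries is at most
`L |S| / M` with `L < 2`.
-/

namespace Pool.Agent.Q231.VCR

open Finset

variable {ι : Type} [Fintype ι] [DecidableEq ι]

/-- the factor -/
noncomputable def LL (q : ℕ) : ℝ := 64 * q / (32 * q + 1)

/-- sets with slightly more than half of the elements -/
lemma tail_mid (q : ℕ) (hq : 1 ≤ q) (S : Finset ι) (hM : 0 < Fintype.card ι)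
    (h0 : (1 / 2 : ℝ) ≤ S.card / Fintype.card ι)
    (h1 : (S.card / Fintype.card ι : ℝ) ≤ 1 / 2 + 1 / (64 * q)) :
    (tail (64 * q ^ 2 + q) (32 * q ^ 2 + 1) S : ℝ) ≤
      821 / 1000 * (Fintype.card ι : ℝ) ^ (64 * q ^ 2 + q) := by
  have h := tail_add_low (64 * q ^ 2 + q) (32 * q ^ 2 + 1) S
  have h2 : (tail (64 * q ^ 2 + q) (32 * q ^ 2 + 1) S : ℝ) +
      ((univ.filter fun f : Fin (64 * q ^ 2 + q) → ι => hits f S < 32 * q ^ 2 + 1).card : ℝ) =
      (Fintype.card ι : ℝ) ^ (64 * q ^ 2 + q) := by exact_mod_cast h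
  rw [low_real _ _ S (by omega) hM] at h2
  have h3 := low_bound q hq h0 h1
  have h4 := mul_le_mul_of_nonneg_right h3
    (show (0 : ℝ) ≤ (Fintype.card ι : ℝ) ^ (64 * q ^ 2 + q) by positivity)
  linarith

/-- small sets -/
lemma tail_small (q : ℕ) (hq : 1 ≤ q) (S : Finset ι) (hM : 0 < Fintype.card ι) :
    (tail (64 * q ^ 2 + q) (32 * q ^ 2 + 1) S : ℝ) ≤
      (65 / 32) ^ 2 * (S.card / Fintype.card ι : ℝ) ^ 2 *
        (Fintype.card ι : ℝ) ^ (64 * q ^ 2 + q) := by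
  have hq1 : (1 : ℝ) ≤ q := by exact_mod_cast hq
  have hq2 : 1 ≤ q ^ 2 := Nat.one_le_pow _ _ hq
  obtain ⟨r, hr⟩ : ∃ r, r = 64 * q ^ 2 + q := ⟨_, rfl⟩
  obtain ⟨m, hm⟩ : ∃ m, m = 32 * q ^ 2 + 1 := ⟨_, rfl⟩
  rw [← hr, ← hm]
  have h := choose_tail r m 2 S
  have h2 : (m.choose 2 : ℝ) * tail r m S ≤
      r.choose 2 * ((S.card : ℝ) ^ 2 * (Fintype.card ι : ℝ) ^ (r - 2)) := by exact_mod_cast h
  rw [Nat.cast_choose_two, Nat.cast_choose_two] at h2
  have hMr : (0 : ℝ) < Fintype.card ι := by exact_mod_cast hM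
  have e1 : (Fintype.card ι : ℝ) ^ r = (Fintype.card ι : ℝ) ^ 2 * (Fintype.card ι : ℝ) ^ (r - 2) := by
    rw [← pow_add]
    congr 1
    omega
  have hmr : (m : ℝ) = 32 * q ^ 2 + 1 := by rw [hm]; push_cast; ring
  have hrr : (r : ℝ) = 64 * q ^ 2 + q := by rw [hr]; push_cast; ring
  have hX : (0 : ℝ) ≤ (S.card : ℝ) ^ 2 * (Fintype.card ι : ℝ) ^ (r - 2) := by positivity
  have h5 : (r : ℝ) * (r - 1) ≤ (65 / 32) ^ 2 * ((m : ℝ) * (m - 1)) := by
    rw [hmr, hrr]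
    have e2 : (64 * (q : ℝ) ^ 2 + q) ≤ 65 * q ^ 2 := by nlinarith
    have e3 : (0 : ℝ) ≤ 64 * (q : ℝ) ^ 2 + q := by positivity
    calc (64 * (q : ℝ) ^ 2 + q) * (64 * q ^ 2 + q - 1)
        ≤ (65 * q ^ 2) * (65 * q ^ 2) := by
          apply mul_le_mul e2 (by linarith) (by nlinarith) (by positivity)
      _ = (65 / 32 : ℝ) ^ 2 * ((32 * (q : ℝ) ^ 2) * (32 * (q : ℝ) ^ 2)) := by ring
      _ ≤ (65 / 32 : ℝ) ^ 2 * ((32 * (q : ℝ) ^ 2 + 1) * (32 * q ^ 2 + 1 - 1)) := by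
          have : (32 * (q : ℝ) ^ 2) * (32 * q ^ 2) ≤ (32 * (q : ℝ) ^ 2 + 1) * (32 * q ^ 2 + 1 - 1) := by
            nlinarith [sq_nonneg (q : ℝ)]
          nlinarith
  have hm0 : (0 : ℝ) < (m : ℝ) * (m - 1) := by
    rw [hmr]
    have : (0 : ℝ) < (q : ℝ) ^ 2 := by positivity
    nlinarith
  have h6 : (m : ℝ) * (m - 1) * tail r m S ≤
      (m : ℝ) * (m - 1) * ((65 / 32) ^ 2 * ((S.card : ℝ) ^ 2 * (Fintype.card ι : ℝ) ^ (r - 2))) := by
    have h7 := mul_le_mul_of_nonneg_right h5 hX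
    nlinarith
  have h8 := le_of_mul_le_mul_left h6 hm0
  refine h8.trans (le_of_eq ?_)
  rw [e1, div_pow]
  field_simp

/-- the bound -/
theorem tail_bound (q : ℕ) (hq : 1 ≤ q) (S : Finset ι) (hM : 32 * q ≤ Fintype.card ι) :
    (tail (64 * q ^ 2 + q) (32 * q ^ 2 + 1) S : ℝ) ≤
      LL q * (S.card / Fintype.card ι : ℝ) * (Fintype.card ι : ℝ) ^ (64 * q ^ 2 + q) := by
  have hq1 : (1 : ℝ) ≤ q := by exact_mod_cast hq
  have hM0 : 0 < Fintype.card ι := by omega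
  have hMr : (0 : ℝ) < Fintype.card ι := by exact_mod_cast hM0
  have hP : (0 : ℝ) < (Fintype.card ι : ℝ) ^ (64 * q ^ 2 + q) := by positivity
  have hL1 : (64 / 33 : ℝ) ≤ LL q := by
    unfold LL
    rw [div_le_div_iff₀ (by norm_num) (by positivity)]
    linarith
  obtain ⟨c, hc⟩ : ∃ c : ℝ, c = S.card / Fintype.card ι := ⟨_, rfl⟩
  rw [← hc]
  have hc0 : 0 ≤ c := by rw [hc]; positivity
  rcases lt_or_ge c (44 / 100) with h1 | h1
  · have h := tail_small q hq S hM0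
    rw [← hc] at h
    refine h.trans (mul_le_mul_of_nonneg_right ?_ hP.le)
    have : (65 / 32 : ℝ) ^ 2 * c ≤ 64 / 33 := by nlinarith
    nlinarith
  rcases lt_or_ge c (1 / 2) with h2 | h2
  · -- enlarge the set
    have hle : S.card ≤ (Fintype.card ι + 1) / 2 := by
      rw [hc, div_lt_iff₀ hMr] at h2
      have : 2 * (S.card : ℝ) < Fintype.card ι := by linarith
      have h3 : 2 * S.card < Fintype.card ι := by exact_mod_cast this
      omega
    obtain ⟨S', hS, hS'⟩ := Finset.exists_superset_card_eq hle (by omega)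
    have hcar : (1 / 2 : ℝ) ≤ S'.card / Fintype.card ι := by
      rw [le_div_iff₀ hMr, hS']
      have : Fintype.card ι ≤ 2 * ((Fintype.card ι + 1) / 2) := by omega
      have h3 : (Fintype.card ι : ℝ) ≤ 2 * ((Fintype.card ι + 1) / 2 : ℕ) := by exact_mod_cast this
      linarith
    have hcar2 : (S'.card / Fintype.card ι : ℝ) ≤ 1 / 2 + 1 / (64 * q) := by
      rw [div_le_iff₀ hMr, hS']
      have : 2 * ((Fintype.card ι + 1) / 2) ≤ Fintype.card ι + 1 := by omega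
      have h3 : 2 * (((Fintype.card ι + 1) / 2 : ℕ) : ℝ) ≤ Fintype.card ι + 1 := by exact_mod_cast this
      have h4 : (32 * q : ℝ) ≤ Fintype.card ι := by exact_mod_cast hM
      have h5 : (1 / 2 : ℝ) ≤ 1 / (64 * q) * Fintype.card ι := by
        calc (1 / 2 : ℝ) = 1 / (64 * q) * (32 * q) := by field_simp; norm_num
          _ ≤ _ := mul_le_mul_of_nonneg_left h4 (by positivity)
      nlinarith
    have h := tail_mid q hq S' hM0 hcar hcar2
    have hmono : (tail (64 * q ^ 2 + q) (32 * q ^ 2 + 1) S : ℝ) ≤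
        tail (64 * q ^ 2 + q) (32 * q ^ 2 + 1) S' := by exact_mod_cast tail_mono hS
    refine hmono.trans (h.trans (mul_le_mul_of_nonneg_right ?_ hP.le))
    nlinarith
  rcases le_or_gt c (1 / 2 + 1 / (64 * q)) with h3 | h3
  · have h := tail_mid q hq S hM0 (by rw [← hc]; exact h2) (by rw [← hc]; exact h3)
    refine h.trans (mul_le_mul_of_nonneg_right ?_ hP.le)
    nlinarith
  · have h : (tail (64 * q ^ 2 + q) (32 * q ^ 2 + 1) S : ℝ) ≤
        (Fintype.card ι : ℝ) ^ (64 * q ^ 2 + q) := by exact_mod_cast tail_le _ _ S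
    refine h.trans ?_
    have h4 : 1 ≤ LL q * c := by
      unfold LL
      have e1 : (1 / 2 + 1 / (64 * q) : ℝ) = (32 * q + 1) / (64 * q) := by field_simp; ring
      rw [e1] at h3
      calc (1 : ℝ) = 64 * q / (32 * q + 1) * ((32 * q + 1) / (64 * q)) := by field_simp
        _ ≤ _ := mul_le_mul_of_nonneg_left h3.le (by positivity)
    nlinarith

/-- one set -/
lemma tail_one (S : Finset ι) (hM : 0 < Fintype.card ι) :
    (tail 1 1 S : ℝ) ≤ 1 * (S.card / Fintype.card ι : ℝ) * (Fintype.card ι : ℝ) ^ 1 := by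
  have h := choose_tail 1 1 1 S
  simp only [Nat.choose_self, one_mul, pow_one, Nat.sub_self, pow_zero, mul_one] at h
  have hMr : (0 : ℝ) < Fintype.card ι := by exact_mod_cast hM
  have h2 : (tail 1 1 S : ℝ) ≤ S.card := by exact_mod_cast h
  refine h2.trans (le_of_eq ?_)
  field_simp

end Pool.Agent.Q231.VCR
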