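import Pool.Agent.Q231.VCR.Core
import Pool.Agent.Q231.VCR.TailBound

set_option autoImplicit false

/-!
The parameters.
-/

namespace Pool.Agent.Q231.VCR

open Finset DomAC0 H568R2 Pool.Agent.TH163.AC3 Pool.Agent.Y601 Pool.Agent.Y601.SSE

lemma exists_tuple (q : ℕ) (hq : 1 ≤ q) (c : ℝ)
    (hc : 2 - 1 / (17 * (q : ℝ)) ≤ c ∨ (q = 1 ∧ 1 < c)) :
    ∃ (r m : ℕ) (L : ℝ), q + 2 * m ≤ r + 2 ∧ 1 ≤ m ∧ 0 < L ∧ L < c ∧
      ∀ (ι : Type) [Fintype ι] [DecidableEq ι], 32 * q ≤ Fintype.card ι → ∀ S : Finset ι,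
        (tail r m S : ℝ) ≤ L * (S.card / Fintype.card ι : ℝ) * (Fintype.card ι : ℝ) ^ r := by
  have hq1 : (1 : ℝ) ≤ q := by exact_mod_cast hq
  rcases hc with hc | ⟨rfl, hc⟩
  · refine ⟨64 * q ^ 2 + q, 32 * q ^ 2 + 1, LL q, by omega, by omega, ?_, ?_, ?_⟩
    · unfold LL
      positivity
    · refine lt_of_lt_of_le ?_ hc
      unfold LL
      have e1 : (64 * (q : ℝ) / (32 * q + 1)) = 2 - 2 / (32 * q + 1) := by
        field_simp
        ring
      rw [e1]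
      have e2 : 1 / (17 * (q : ℝ)) < 2 / (32 * q + 1) := by
        rw [div_lt_div_iff₀ (by positivity) (by positivity)]
        linarith
      linarith
    · intro ι _ _ hι S
      exact tail_bound q hq S hι
  · refine ⟨1, 1, 1, by omega, le_rfl, one_pos, hc, ?_⟩
    intro ι _ _ hι S
    exact tail_one S (by omega)

theorem main (h q : ℕ) (hq : 1 ≤ q) (γ : ℝ) (hγ : 0 < γ) (hγ1 : γ ≤ 1) (c : ℝ)
    (hc : 2 - 1 / (17 * (q : ℝ)) ≤ c ∨ (q = 1 ∧ 1 < c)) :
    ∃ N0 : ℕ, ∀ N : ℕ, N0 ≤ N → ∀ R : GapReduction N h c,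
      R.DegreeLE ((N : ℝ) ^ ((q : ℝ) - γ)) →
      (2 : ℝ) ^ ((N : ℝ) ^ (γ / (q * (h + 2))) / 5) < R.C.size := by
  have hq1 : (1 : ℝ) ≤ q := by exact_mod_cast hq
  obtain ⟨r, m, L, hrm, hm, hL0, hLc, htail⟩ := exists_tuple q hq c hc
  have hc0 : 0 < c := hL0.trans hLc
  obtain ⟨η, hη⟩ : ∃ η : ℝ, η = (c - L) / (2 * c) := ⟨_, rfl⟩
  have hη0 : 0 < η := by
    rw [hη]
    apply div_pos <;> linarith
  have hη1 : η < 1 := by
    rw [hη, div_lt_one (by linarith)]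
    linarith
  have hη2 : L ≤ c * (1 - η) * (1 - η) := by
    have h1 : c * η = (c - L) / 2 := by
      rw [hη]
      field_simp
    nlinarith [sq_nonneg η, mul_nonneg hc0.le (sq_nonneg η)]
  obtain ⟨l0, hl0⟩ := exists_pow_lt_of_lt_one hη0 (show (1 / 2 : ℝ) < 1 by norm_num)
  obtain ⟨l, hl⟩ : ∃ l, l = l0 + 1 := ⟨_, rfl⟩
  have hlη : (1 / 2 : ℝ) ^ l ≤ η := by
    rw [hl, pow_succ]
    have : (0 : ℝ) < (1 / 2) ^ l0 := by positivity
    nlinarith
  obtain ⟨Y1, hY148, hY1⟩ := exists_large h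
  -- the constant of the error
  obtain ⟨P, hP⟩ : ∃ P : ℝ, P = 4 * 24 ^ h := ⟨_, rfl⟩
  have hP1 : 1 ≤ P := by
    rw [hP]
    have : (1 : ℝ) ≤ 24 ^ h := one_le_pow₀ (by norm_num)
    linarith
  obtain ⟨E, hE⟩ : ∃ E : ℝ, E = 2 * r.choose q * ((2 * l + 3) * P) ^ q := ⟨_, rfl⟩
  have hE0 : 0 ≤ E := by
    rw [hE]
    positivity
  obtain ⟨Y0, hY0⟩ : ∃ Y0 : ℝ, Y0 = Y1 + P + 32 * q * P + E / η + 2 := ⟨_, rfl⟩
  have hexp : 0 < γ / (q * (h + 2)) := by positivity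
  have hlim : Filter.Tendsto (fun N : ℕ => (N : ℝ) ^ (γ / (q * (h + 2)))) Filter.atTop
      Filter.atTop := (tendsto_rpow_atTop hexp).comp tendsto_natCast_atTop_atTop
  obtain ⟨N1, hN1⟩ := Filter.eventually_atTop.1 (hlim.eventually_ge_atTop Y0)
  refine ⟨N1 + 1, fun N hN R hR => ?_⟩
  obtain ⟨Y, hYd⟩ : ∃ Y : ℝ, Y = (N : ℝ) ^ (γ / (q * (h + 2))) := ⟨_, rfl⟩
  have hYY : Y0 ≤ Y := by
    rw [hYd]
    exact hN1 N (by omega)
  rw [← hYd]
  have hN0 : (1 : ℝ) ≤ N := by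
    have : 1 ≤ N := by omega
    exact_mod_cast this
  have hNpos : (0 : ℝ) < N := by linarith
  have hEη : 0 ≤ E / η := by positivity
  have hqP : 0 ≤ 32 * q * P := by positivity
  have hYa : Y1 ≤ Y := by linarith
  have hYb : P + 1 ≤ Y := by linarith
  have hYc : 32 * q * P ≤ Y := by linarith
  have hYd2 : E / η ≤ Y := by linarith
  have hY1' : 1 ≤ Y := by linarith
  have hYpos : 0 < Y := by linarith
  by_contra hcon
  push Not at hcon
  obtain ⟨s, hs⟩ : ∃ s : ℕ, s = ⌊Y⌋₊ := ⟨_, rfl⟩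
  have hsY : (s : ℝ) ≤ Y := by
    rw [hs]
    exact Nat.floor_le hYpos.le
  have hsY2 : Y - 1 ≤ s := by
    rw [hs]
    have := Nat.lt_floor_add_one Y
    linarith
  have hs1 : 1 ≤ s := by
    rw [hs]
    exact Nat.le_floor (by exact_mod_cast hY1')
  have hs1r : (1 : ℝ) ≤ s := by exact_mod_cast hs1
  have hcond : h * R.C.size * (24 * s) ^ h ≤ 2 ^ s := by
    have h1 : ((h * R.C.size * (24 * s) ^ h : ℕ) : ℝ) ≤ ((2 ^ s : ℕ) : ℝ) := by
      push_cast
      have h2 := hY1 (24 * Y) (by linarith)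
      calc (h : ℝ) * R.C.size * (24 * s) ^ h ≤ h * 2 ^ (24 * Y / 100) * (24 * Y) ^ h := by
            apply mul_le_mul _ (pow_le_pow_left₀ (by positivity) (by linarith) h) (by positivity)
              (by positivity)
            refine mul_le_mul_of_nonneg_left (hcon.trans ?_) (Nat.cast_nonneg _)
            apply Real.rpow_le_rpow_of_exponent_le (by norm_num)
            linarith
        _ = h * (24 * Y) ^ h * 2 ^ (24 * Y / 100) := by ring
        _ ≤ 2 ^ (24 * Y / 24 - 1) := h2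
        _ ≤ (2 : ℝ) ^ (s : ℝ) := by
            apply Real.rpow_le_rpow_of_exponent_le (by norm_num)
            have : 24 * Y / 24 = Y := by ring
            rw [this]
            exact hsY2
        _ = 2 ^ s := Real.rpow_natCast _ _
    exact_mod_cast h1
  obtain ⟨ρ, hρ, hst⟩ := exists_restr R.C (by rw [Fintype.card_fin]; omega) hs1 h hcond
  rw [Fintype.card_fin] at hst
  obtain ⟨M, hM⟩ : ∃ M : ℕ, M = Fintype.card {i // ρ i = none} := ⟨_, rfl⟩
  have hcard : (univ.filter fun i => ρ i = none).card = M := by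
    rw [hM, Fintype.card_subtype]
  rw [hcard] at hst
  -- the number of stars
  have hNM : (N : ℝ) ≤ P * Y ^ h * M := by
    refine hst.trans ?_
    apply mul_le_mul_of_nonneg_right _ (Nat.cast_nonneg M)
    rw [hP]
    calc (4 : ℝ) * (24 * s) ^ h = 4 * 24 ^ h * (s : ℝ) ^ h := by rw [mul_pow]; ring
      _ ≤ 4 * 24 ^ h * Y ^ h :=
        mul_le_mul_of_nonneg_left (pow_le_pow_left₀ (by positivity) hsY h) (by positivity)
  have hYq : Y ^ (q * (h + 2)) = (N : ℝ) ^ γ := by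
    rw [hYd, ← Real.rpow_natCast, ← Real.rpow_mul hNpos.le]
    congr 1
    push_cast
    field_simp
  have hNγ : (N : ℝ) ^ γ ≤ N := by
    calc (N : ℝ) ^ γ ≤ (N : ℝ) ^ (1 : ℝ) := Real.rpow_le_rpow_of_exponent_le hN0 hγ1
      _ = N := Real.rpow_one _
  have hYN : Y ^ (h + 2) ≤ N := by
    refine le_trans ?_ hNγ
    rw [← hYq]
    apply pow_le_pow_right₀ hY1'
    calc h + 2 = 1 * (h + 2) := (one_mul _).symm
      _ ≤ q * (h + 2) := Nat.mul_le_mul_right _ hq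
  have hYh : (0 : ℝ) < Y ^ h := by positivity
  have hMbig : Y ^ 2 ≤ P * M := by
    have h1 : Y ^ h * Y ^ 2 ≤ Y ^ h * (P * M) := by
      calc Y ^ h * Y ^ 2 = Y ^ (h + 2) := (pow_add _ _ _).symm
        _ ≤ N := hYN
        _ ≤ P * Y ^ h * M := hNM
        _ = _ := by ring
    exact le_of_mul_le_mul_left h1 hYh
  have hPpos : 0 < P := by linarith
  have hMY : Y < M := by
    by_contra h1
    push Not at h1
    have h2 : P * M ≤ P * Y := mul_le_mul_of_nonneg_left h1 hPpos.le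
    nlinarith
  have hsM : s < M := by
    have : (s : ℝ) < M := by linarith
    exact_mod_cast this
  have hM32 : 32 * q ≤ M := by
    have : (32 * q : ℝ) ≤ M := by nlinarith
    exact_mod_cast this
  have hMpos : (0 : ℝ) < M := by linarith
  -- the error
  obtain ⟨ε, hε⟩ : ∃ ε : ℝ, ε = r.choose q *
      ((((2 * l + 3) * s : ℕ) : ℝ) / Fintype.card {i // ρ i = none}) ^ q := ⟨_, rfl⟩
  have hε2 : ε ≤ r.choose q * (((2 * l + 3) * P) ^ q * (Y ^ (q * (h + 1)) / (N : ℝ) ^ q)) := by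
    rw [hε, ← hM]
    apply mul_le_mul_of_nonneg_left _ (Nat.cast_nonneg _)
    have h1 : ((((2 * l + 3) * s : ℕ) : ℝ) / M) ≤ ((2 * l + 3) * P) * Y ^ (h + 1) / N := by
      rw [div_le_div_iff₀ hMpos hNpos]
      push_cast
      calc (2 * (l : ℝ) + 3) * s * N ≤ (2 * (l : ℝ) + 3) * Y * (P * Y ^ h * M) := by
            apply mul_le_mul _ hNM hNpos.le (by positivity)
            exact mul_le_mul_of_nonneg_left hsY (by positivity)
        _ = (2 * l + 3) * P * Y ^ (h + 1) * M := by ring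
    refine (pow_le_pow_left₀ (by positivity) h1 q).trans (le_of_eq ?_)
    rw [div_pow, mul_pow, ← pow_mul, mul_comm (h + 1) q, mul_div_assoc]
  have hδ : 2 * (N : ℝ) ^ ((q : ℝ) - γ) * ε ≤ E / Y := by
    have hd0 : 0 ≤ 2 * (N : ℝ) ^ ((q : ℝ) - γ) := by positivity
    refine (mul_le_mul_of_nonneg_left hε2 hd0).trans ?_
    have h1 : (N : ℝ) ^ ((q : ℝ) - γ) = (N : ℝ) ^ q / Y ^ (q * (h + 2)) := by
      rw [Real.rpow_sub hNpos, Real.rpow_natCast, hYq]
    rw [h1, hE]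
    have h2 : Y ^ (q * (h + 2)) = Y ^ (q * (h + 1)) * Y ^ q := by
      rw [← pow_add]
      congr 1
    rw [h2]
    have hNq : (0 : ℝ) < (N : ℝ) ^ q := by positivity
    have hYq1 : (0 : ℝ) < Y ^ (q * (h + 1)) := by positivity
    have h3 : 2 * ((N : ℝ) ^ q / (Y ^ (q * (h + 1)) * Y ^ q)) *
        (r.choose q * (((2 * l + 3) * P) ^ q * (Y ^ (q * (h + 1)) / (N : ℝ) ^ q))) =
        2 * r.choose q * ((2 * l + 3) * P) ^ q / Y ^ q := by
      field_simp
    rw [h3]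
    apply div_le_div_of_nonneg_left (by positivity) hYpos
    calc Y = Y ^ 1 := (pow_one Y).symm
      _ ≤ Y ^ q := pow_le_pow_right₀ hY1' hq
  have hEY : E / Y ≤ η := by
    rw [div_le_iff₀ hYpos]
    rw [div_le_iff₀ hη0] at hYd2
    linarith
  have hδη := hδ.trans hEY
  refine core R hR hs1 ρ hρ (by rw [← hM]; exact hsM) r m q l hrm hm (by omega) L hL0.le
    (fun S => htail _ (by rw [← hM]; exact hM32) S) ε hε (by linarith) ?_
  have h1 : 1 - η ≤ 1 - 2 * (N : ℝ) ^ ((q : ℝ) - γ) * ε := by linarith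
  have h2 : 1 - η ≤ 1 - (1 / 2 : ℝ) ^ l := by linarith
  calc L ≤ c * (1 - η) * (1 - η) := hη2
    _ ≤ c * (1 - (1 / 2) ^ l) * (1 - 2 * (N : ℝ) ^ ((q : ℝ) - γ) * ε) := by
      apply mul_le_mul _ h1 (by linarith)
      · have : (0 : ℝ) ≤ 1 - (1 / 2) ^ l := by linarith
        positivity
      · exact mul_le_mul_of_nonneg_left h2 hc0.le

end Pool.Agent.Q231.VCR
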