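import Mathlib

set_option autoImplicit false

/-!
Tuples which meet a set often: counting, and a bound `L |S| / M` with `L < 2` for the proportion.
-/

namespace Pool.Agent.Q231.VCR

open Finset

variable {ι : Type} [Fintype ι] [DecidableEq ι]

/-- the number of the entries of `f` in `S` -/
def hits {r : ℕ} (f : Fin r → ι) (S : Finset ι) : ℕ := (univ.filter fun i => f i ∈ S).card

/-- the number of the `r`-tuples with at least `m` entries in `S` -/
def tail (r m : ℕ) (S : Finset ι) : ℕ :=
  (univ.filter fun f : Fin r → ι => m ≤ hits f S).card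

lemma tail_mono {r m : ℕ} {S T : Finset ι} (h : S ⊆ T) : tail r m S ≤ tail r m T := by
  unfold tail
  apply card_le_card
  intro f hf
  rw [mem_filter] at hf ⊢
  refine ⟨mem_univ _, hf.2.trans ?_⟩
  unfold hits
  apply card_le_card
  intro i hi
  rw [mem_filter] at hi ⊢
  exact ⟨mem_univ _, h hi.2⟩

lemma tail_le (r m : ℕ) (S : Finset ι) : tail r m S ≤ Fintype.card ι ^ r := by
  unfold tail
  refine (card_le_univ _).trans (le_of_eq ?_)
  rw [Fintype.card_fun, Fintype.card_fin]

/-- tuples with all entries of `Q` in `S` -/
lemma card_all {r : ℕ} (Q : Finset (Fin r)) (S : Finset ι) :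
    (univ.filter fun f : Fin r → ι => ∀ i ∈ Q, f i ∈ S).card =
      S.card ^ Q.card * Fintype.card ι ^ (r - Q.card) := by
  have h1 : (univ.filter fun f : Fin r → ι => ∀ i ∈ Q, f i ∈ S) =
      Fintype.piFinset fun i => if i ∈ Q then S else univ := by
    ext f
    simp only [mem_filter, mem_univ, true_and, Fintype.mem_piFinset]
    refine forall_congr' fun i => ?_
    by_cases hi : i ∈ Q <;> simp [hi]
  rw [h1, Fintype.card_piFinset]
  have h2 : ∀ i : Fin r, (if i ∈ Q then S else univ).card =
      if i ∈ Q then S.card else Fintype.card ι := by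
    intro i
    by_cases hi : i ∈ Q <;> simp [hi]
  simp_rw [h2]
  rw [prod_ite, prod_const, prod_const]
  congr 2
  · simp
  · have h3 := Finset.card_filter_add_card_filter_not (s := (univ : Finset (Fin r))) (fun i => i ∈ Q)
    have h4 : (univ.filter fun i => i ∈ Q).card = Q.card := by simp
    rw [h4, card_univ, Fintype.card_fin] at h3
    omega

/-- tuples whose entries in `S` are exactly those of `Q` -/
lemma card_exact {r : ℕ} (Q : Finset (Fin r)) (S : Finset ι) :
    (univ.filter fun f : Fin r → ι => (univ.filter fun i => f i ∈ S) = Q).card =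
      S.card ^ Q.card * (Fintype.card ι - S.card) ^ (r - Q.card) := by
  have h1 : (univ.filter fun f : Fin r → ι => (univ.filter fun i => f i ∈ S) = Q) =
      Fintype.piFinset fun i => if i ∈ Q then S else Sᶜ := by
    ext f
    simp only [mem_filter, mem_univ, true_and, Fintype.mem_piFinset, Finset.ext_iff]
    refine forall_congr' fun i => ?_
    by_cases hi : i ∈ Q <;> simp [hi]
  rw [h1, Fintype.card_piFinset]
  have h2 : ∀ i : Fin r, (if i ∈ Q then S else Sᶜ).card =
      if i ∈ Q then S.card else Fintype.card ι - S.card := by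
    intro i
    by_cases hi : i ∈ Q
    · simp [hi]
    · simp [hi, card_compl]
  simp_rw [h2]
  rw [prod_ite, prod_const, prod_const]
  congr 2
  · simp
  · have h3 := Finset.card_filter_add_card_filter_not (s := (univ : Finset (Fin r))) (fun i => i ∈ Q)
    have h4 : (univ.filter fun i => i ∈ Q).card = Q.card := by simp
    rw [h4, card_univ, Fintype.card_fin] at h3
    omega

/-- double counting of the pairs of a tuple and a `k`-set of its entries in `S` -/
lemma choose_tail (r m k : ℕ) (S : Finset ι) :
    m.choose k * tail r m S ≤ r.choose k * (S.card ^ k * Fintype.card ι ^ (r - k)) := by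
  have h1 : ∑ f : Fin r → ι, ((powersetCard k (univ : Finset (Fin r))).filter
      fun Q => ∀ i ∈ Q, f i ∈ S).card =
      r.choose k * (S.card ^ k * Fintype.card ι ^ (r - k)) := by
    simp_rw [card_filter]
    rw [sum_comm]
    have : ∀ Q ∈ powersetCard k (univ : Finset (Fin r)),
        (∑ f : Fin r → ι, if ∀ i ∈ Q, f i ∈ S then 1 else 0) =
          S.card ^ k * Fintype.card ι ^ (r - k) := by
      intro Q hQ
      rw [← card_filter, card_all, (mem_powersetCard.1 hQ).2]
    rw [sum_congr rfl this, sum_const, card_powersetCard, card_univ, Fintype.card_fin, smul_eq_mul]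
  rw [← h1]
  unfold tail
  rw [mul_comm, ← smul_eq_mul, ← sum_const]
  refine (sum_le_sum ?_).trans (sum_le_sum_of_subset (filter_subset _ _))
  intro f hf
  rw [mem_filter] at hf
  have h2 : (powersetCard k (univ.filter fun i => f i ∈ S)) ⊆
      (powersetCard k (univ : Finset (Fin r))).filter fun Q => ∀ i ∈ Q, f i ∈ S := by
    intro Q hQ
    rw [mem_powersetCard] at hQ
    rw [mem_filter, mem_powersetCard]
    refine ⟨⟨subset_univ _, hQ.2⟩, fun i hi => ?_⟩
    exact (mem_filter.1 (hQ.1 hi)).2
  refine le_trans ?_ (card_le_card h2)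
  rw [card_powersetCard]
  exact Nat.choose_le_choose k hf.2

/-- the number of the tuples with fewer than `m` entries in `S` -/
lemma low_eq (r m : ℕ) (S : Finset ι) (hm : m ≤ r + 1) :
    (univ.filter fun f : Fin r → ι => hits f S < m).card =
      ∑ j ∈ range m, r.choose j * (S.card ^ j * (Fintype.card ι - S.card) ^ (r - j)) := by
  have h1 : (univ.filter fun f : Fin r → ι => hits f S < m) =
      ((range m).biUnion fun j => powersetCard j (univ : Finset (Fin r))).biUnion
        fun Q => univ.filter fun f : Fin r → ι => (univ.filter fun i => f i ∈ S) = Q := by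
    ext f
    simp only [mem_filter, mem_univ, true_and, mem_biUnion, mem_range, mem_powersetCard]
    constructor
    · intro h
      exact ⟨_, ⟨hits f S, h, subset_univ _, rfl⟩, rfl⟩
    · rintro ⟨Q, ⟨j, hj, _, hc⟩, rfl⟩
      unfold hits
      rw [hc]
      exact hj
  rw [h1, card_biUnion, sum_biUnion]
  · apply sum_congr rfl
    intro j _
    rw [sum_congr rfl (g := fun _ => S.card ^ j * (Fintype.card ι - S.card) ^ (r - j)), sum_const,
      card_powersetCard, card_univ, Fintype.card_fin, smul_eq_mul]
    intro Q hQ
    rw [card_exact, (mem_powersetCard.1 hQ).2]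
  · intro a _ b _ hab
    rw [Function.onFun, disjoint_left]
    intro Q h2 h3
    rw [mem_powersetCard] at h2 h3
    exact hab (h2.2.symm.trans h3.2)
  · intro Q _ Q' _ hQ
    rw [Function.onFun, disjoint_left]
    intro f h2 h3
    rw [mem_filter] at h2 h3
    exact hQ (h2.2.symm.trans h3.2)

lemma tail_add_low (r m : ℕ) (S : Finset ι) :
    tail r m S + (univ.filter fun f : Fin r → ι => hits f S < m).card = Fintype.card ι ^ r := by
  unfold tail
  have h := Finset.card_filter_add_card_filter_not (s := (univ : Finset (Fin r → ι)))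
    (fun f => m ≤ hits f S)
  simp only [not_le] at h
  rw [h, card_univ, Fintype.card_fun, Fintype.card_fin]

/-- the low part of the binomial distribution, as a real number -/
lemma low_real (r m : ℕ) (S : Finset ι) (hm : m ≤ r + 1) (hM : 0 < Fintype.card ι) :
    ((univ.filter fun f : Fin r → ι => hits f S < m).card : ℝ) =
      (∑ j ∈ range m, (r.choose j : ℝ) * ((S.card / Fintype.card ι : ℝ) ^ j *
        (1 - S.card / Fintype.card ι) ^ (r - j))) * (Fintype.card ι : ℝ) ^ r := by
  rw [low_eq r m S hm, sum_mul]
  push_cast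
  apply sum_congr rfl
  intro j hj
  rw [mem_range] at hj
  have hMr : (Fintype.card ι : ℝ) ≠ 0 := by exact_mod_cast hM.ne'
  have hle : S.card ≤ Fintype.card ι := card_le_univ _
  have e1 : (1 - (S.card : ℝ) / Fintype.card ι) = ((Fintype.card ι - S.card : ℕ) : ℝ) / Fintype.card ι := by
    rw [Nat.cast_sub hle]
    field_simp
  have e2 : (Fintype.card ι : ℝ) ^ r = (Fintype.card ι : ℝ) ^ j * (Fintype.card ι : ℝ) ^ (r - j) := by
    rw [← pow_add]
    congr 1
    omega
  rw [e1, div_pow, div_pow, e2]
  field_simp

end Pool.Agent.Q231.VCR
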